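import Mathlib
import Pool.Agent.Helper139_Saxl.G15

/-!
# The generalised Saxl conjecture in type `A`

The definitions used in the statement are in `Pool.Agent.Helper139_Saxl.Defs` (partitions), in
`Pool.Agent.Helper139_Saxl.Ga` (the dominance order) and in `Pool.Agent.Helper139_Saxl.Lab`
(labels of irreducible representations of the symmetric group).
-/

namespace Pool.Agent.Results.MP_932ab4_al.TypeA

open Pool.Saxl

/-- Let `O` be the minimal strict partition of `n`, i.e. the minimal solvable orbit of `sl_n`. If a
representation `ρ` of `S_n` contains every irreducible representation whose label `a` lies between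
the transposed partition of `O` and `O` in the dominance order (for example, `ρ = Σ`), then `ρ ⊗ ρ`
contains every irreducible representation of `S_n`. -/
theorem result (n : ℕ) (O : ℕ → ℕ) (hO : IsPart O n) (hst : Strict O)
    (hmin : ∀ xi : ℕ → ℕ, IsPart xi n → Strict xi → Dom O xi)
    {M : Type*} [AddCommGroup M] [Module ℂ M] (ρ : Representation ℂ (Equiv.Perm (Fin n)) M)
    (hρ : ∀ a : ℕ → ℕ, IsPart a n → Dom a O → Dom (cj O) a → ∀ (V : Type) [AddCommGroup V]
      [Module ℂ V] (ψ : Representation ℂ (Equiv.Perm (Fin n)) V), ψ.IsIrreducible →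
      HasLabel ψ a → Contains ρ ψ)
    {U : Type*} [AddCommGroup U] [Module ℂ U] (σ : Representation ℂ (Equiv.Perm (Fin n)) U)
    (hσ : σ.IsIrreducible) : Contains (ρ.tprod ρ) σ :=
  typeA_final n O hO hst hmin ρ hρ σ hσ

end Pool.Agent.Results.MP_932ab4_al.TypeA
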